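import Pool.Agent.H18.KC.Stmts
import Pool.Agent.H89.KD.Stmts
import Pool.Agent.H20.KF.Tail

/-!
# Full KLS: assembly of Part C (interface check)

From the abstract bound `MAINStmt` (board `kc`), the operators and functionals on `L^2` (board
`kd`) and the bounds of all orders `KBStmt` (Parts A and B) to `KLSStmt`.
-/

set_option autoImplicit false

open MeasureTheory Set Filter Topology
open scoped ContDiff

namespace Pool.Agent.H73.KF

open Pool.Agent.H84 Pool.Agent.H84.Sym Pool.Agent.H84.Sym.P2x Pool.Agent.H19.KL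
open Pool.Agent.H73.KG Pool.Agent.H20.KH Pool.Agent.H89.KD Pool.Agent.H20.KF
open Pool.Agent.H18.KC (Dat MAINStmt)

/-- the abstract data of one measure -/
theorem dat_exists {E : Type} [NormedAddCommGroup E] [InnerProductSpace ℝ E]
    [FiniteDimensional ℝ E] [MeasurableSpace E] [BorelSpace E]
    (hMEM : MEMStmt E) (hOPS : OPSStmt E) (hPRO : PROStmt E) (hNDP : NDPStmt E)
    {Q : ℝ} (hQ : 1 ≤ Q) (U : E → ℝ) (t : ℝ) (hU : PP U t) (hc : CovLe U 1)
    (hK : ∀ m : ℕ, 1 ≤ m → KMU U m ((m.factorial : ℝ) ^ 2 * Q ^ (m - 1)))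
    (ι : Type) [Fintype ι] (b : OrthonormalBasis ι ℝ E) :
    ∃ T : ι → Lp ℝ 2 (mu U) →L[ℝ] Lp ℝ 2 (mu U), IsT b U T ∧
      ∃ D : Dat ι (Lp ℝ 2 (mu U)) t Q, D.e = tL U (fun _ => (1:ℝ)) ∧ ∀ i h, D.T i h = T i h := by
  obtain ⟨⟨T, hT⟩, B, hB⟩ := hOPS U t hU ι b
  obtain ⟨h1, h2, h3, h4⟩ := hPRO U t hU ι b T B hT hB
  obtain ⟨P, p1, p2, p3, p4⟩ := hNDP U t hU hc Q hQ hK ι b T hT
  refine ⟨T, hT, ⟨tL U (fun _ => (1:ℝ)), fun i => (T i).toLinearMap,
    fun j i => (B j i).toLinearMap, fun m w => (P m w).toLinearMap, ?_, hQ, ?_, ?_, ?_, ?_, ?_,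
    ?_, ?_, ?_⟩, rfl, fun i h => rfl⟩
  · obtain ⟨⟨C, hP⟩, -⟩ := hU
    exact hP.pos
  · exact (hMEM U t hU).2.2.2.2.2
  · intro j i h
    exact h1 j i h
  · intro h _
    have := h2 h
    have h5 : (∑ j, ∑ i, ‖B j i h‖ ^ 2) = ∑ i, ∑ j, ‖B j i h‖ ^ 2 := Finset.sum_comm
    simp only [ContinuousLinearMap.coe_coe]
    rw [h5]
    exact this
  · intro h g _ hg i
    exact h3 i h g hg
  · intro m σ a h
    rcases m with _ | m
    · have : a ∘ σ = a := Subsingleton.elim _ _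
      rw [this]
    · exact p1 (m + 1) a σ h (by omega)
  · intro i h _
    have := p2 (fun _ => i) h
    simp only [ContinuousLinearMap.coe_coe]
    exact this.symm
  · intro m a h _
    have := p3 m a h
    simp only [ContinuousLinearMap.coe_coe]
    exact this
  · intro m h _
    have := p4 (m + 1) (by omega) h
    simpa using this

/-- assembly of Part C -/
theorem kls_of (hMAIN : MAINStmt) (hKB : KBStmt)
    (hMEM : ∀ (E : Type) [NormedAddCommGroup E] [InnerProductSpace ℝ E]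
      [FiniteDimensional ℝ E] [MeasurableSpace E] [BorelSpace E], MEMStmt E)
    (hOPS : ∀ (E : Type) [NormedAddCommGroup E] [InnerProductSpace ℝ E]
      [FiniteDimensional ℝ E] [MeasurableSpace E] [BorelSpace E], OPSStmt E)
    (hPRO : ∀ (E : Type) [NormedAddCommGroup E] [InnerProductSpace ℝ E]
      [FiniteDimensional ℝ E] [MeasurableSpace E] [BorelSpace E], PROStmt E)
    (hNDP : ∀ (E : Type) [NormedAddCommGroup E] [InnerProductSpace ℝ E]
      [FiniteDimensional ℝ E] [MeasurableSpace E] [BorelSpace E], NDPStmt E)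
    (hGPF : ∀ (E : Type) [NormedAddCommGroup E] [InnerProductSpace ℝ E]
      [FiniteDimensional ℝ E] [MeasurableSpace E] [BorelSpace E], GPFStmt E) :
    KLSStmt := by
  obtain ⟨Q, hQ, hK⟩ := hKB
  refine ⟨10 ^ 9 * Q + 1, by nlinarith, ?_⟩
  intro E _ _ _ _ _ U t hU hc
  obtain ⟨T, hT, D, hDe, hDT⟩ := dat_exists (hMEM E) (hOPS E) (hPRO E) (hNDP E) hQ U t hU hc
    (hK E U t hU hc) _ (stdOrthonormalBasis ℝ E)
  refine hGPF E U t hU _ (stdOrthonormalBasis ℝ E) T hT (10 ^ 9 * Q + 1) (by nlinarith) ?_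
  intro h hh
  have := hMAIN _ _ t Q D h (by rw [hDe]; exact hh)
  simpa [hDT] using this

end Pool.Agent.H73.KF
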